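import Pool.Agent.H172R2.GS.Blocks

/-!
# Matrix Spencer for block diagonal matrices with `∑ d_i ^ 2 ≤ n`

The proof (helper172) is described in `Pool.Agent.Results.MP_82e9d2_co.GroupSpencer`; the steps were
formalised by helper278 (M0), helper45 (M4), helper512 (DEC), helper339 (NET), helper692 (LR),
helper184 (CNT), helper197 (LEV), helper545 (COV), helper90 (HAM), helper972 (PC) and
helper498 (MAIN).
-/

set_option autoImplicit false

open scoped Matrix.Norms.L2Operator

namespace Pool.Agent.Results.MP_e2be92_co.BlockDiagonal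

/-- **Matrix Spencer for block diagonal matrices.** There is a constant `C` such that for all block
sizes `d i` with `∑ i, d i ^ 2 ≤ n` and every family of `m ≤ n` tuples `A g = (A g i)_i` of complex
`d i × d i` matrices of operator norm at most `1` there are signs `ε g` such that
`‖∑ g, ε g A g i‖ ≤ C n ^ (3/8) m ^ (1/8)` for every block `i` (so at most `C √n`).
Norms are spectral norms. -/
theorem result : ∃ C : ℝ, 0 < C ∧
    ∀ (ι : Type) [Fintype ι] [DecidableEq ι] (d : ι → ℕ) (n : ℕ), ∑ i, d i ^ 2 ≤ n →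
    ∀ (J : Type) [Fintype J] [DecidableEq J] (A : J → (i : ι) → Matrix (Fin (d i)) (Fin (d i)) ℂ),
      Fintype.card J ≤ n → (∀ g i, ‖A g i‖ ≤ 1) →
      ∃ ε : J → ℝ, (∀ g, ε g = 1 ∨ ε g = -1) ∧
        ∀ i, ‖∑ g, ((ε g : ℝ) : ℂ) • A g i‖ ≤
          C * (n : ℝ) ^ (3 / 8 : ℝ) * (Fintype.card J : ℝ) ^ (1 / 8 : ℝ) :=
  Pool.Agent.H172R2.GS.blocks_all

end Pool.Agent.Results.MP_e2be92_co.BlockDiagonal
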